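import Mathlib
import Pool.Agent.Helper58.Quad.Series

/-!
# Two generic quadrics in an exterior algebra: equality of whole Hilbert series

Companion, in the language of the problem, of the proof of the frozen statement `S02409`.
-/

set_option autoImplicit false

namespace Pool.Agent.Results.MP_97e6ed_al.GenericSeries

open MvPolynomial

/-- The exterior algebra over `ℂ` on `n` generators of degree one (Mathlib's). -/
def E (n : ℕ) : Type := ExteriorAlgebra ℂ (Fin n → ℂ)

/-- Its ring structure (Mathlib's). -/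
noncomputable instance instRing (n : ℕ) : Ring (E n) :=
  (inferInstance : Ring (ExteriorAlgebra ℂ (Fin n → ℂ)))

/-- Its algebra structure (Mathlib's). -/
noncomputable instance instAlgebra (n : ℕ) : Algebra ℂ (E n) :=
  (inferInstance : Algebra ℂ (ExteriorAlgebra ℂ (Fin n → ℂ)))

/-- The inclusion of the vectors into the exterior algebra (Mathlib's `ExteriorAlgebra.ι`). -/
noncomputable def incl (n : ℕ) : (Fin n → ℂ) →ₗ[ℂ] E n := ExteriorAlgebra.ι ℂ

/-- The degree `s` component of the exterior algebra: the span of all products of `s` vectors. -/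
noncomputable def comp (n s : ℕ) : Submodule ℂ (E n) := LinearMap.range (incl n) ^ s

/-- The `i`-th generator. -/
noncomputable def gen {n : ℕ} (i : Fin n) : E n := incl n (Pi.single i 1)

/-- The quadratic form in `E n` with coefficients `c (i, j)`, `i < j`. -/
noncomputable def quad {n : ℕ} (c : {p : Fin n × Fin n // p.1 < p.2} → ℂ) : E n :=
  ∑ p, c p • (gen p.1.1 * gen p.1.2)

/-- The two-sided ideal of `E n` generated by `f` and `g`. -/
noncomputable def extIdeal {n : ℕ} (f g : E n) : Ideal (E n) := (TwoSidedIdeal.span {f, g}).asIdeal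

instance instTwoSided {n : ℕ} (f g : E n) : (extIdeal f g).IsTwoSided :=
  (inferInstance : (TwoSidedIdeal.span {f, g}).asIdeal.IsTwoSided)

/-- The quotient algebra `E / (f, g)`. -/
def ExtQuot {n : ℕ} (f g : E n) : Type := E n ⧸ extIdeal f g

noncomputable instance instRingExtQuot {n : ℕ} (f g : E n) : Ring (ExtQuot f g) :=
  (inferInstance : Ring (E n ⧸ extIdeal f g))

noncomputable instance instAlgebraExtQuot {n : ℕ} (f g : E n) : Algebra ℂ (ExtQuot f g) :=
  (inferInstance : Algebra ℂ (E n ⧸ extIdeal f g))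

/-- The projection from `E` onto `E / (f, g)`. -/
noncomputable def extProj {n : ℕ} (f g : E n) : E n →ₐ[ℂ] ExtQuot f g :=
  Ideal.Quotient.mkₐ ℂ (extIdeal f g)

/-- The Hilbert series of `E / (f, g)`: the degree `s` component of the quotient is the image of
the degree `s` component of `E`. -/
noncomputable def extSeries {n : ℕ} (f g : E n) : PowerSeries ℤ :=
  PowerSeries.mk fun s =>
    (Module.finrank ℂ (Submodule.map (extProj f g).toLinearMap (comp n s)) : ℤ)

/-- The linear form `∑ c_i x_i`. -/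
noncomputable def lin {n : ℕ} (c : Fin n → ℂ) : MvPolynomial (Fin n) ℂ := ∑ i, c i • X i

/-- The ideal `(x_1 ^ 2, ..., x_n ^ 2, l₁ ^ 2, l₂ ^ 2)`. -/
noncomputable def symIdeal {n : ℕ} (l₁ l₂ : MvPolynomial (Fin n) ℂ) :
    Ideal (MvPolynomial (Fin n) ℂ) :=
  Ideal.span ((Set.range fun i : Fin n => (X i : MvPolynomial (Fin n) ℂ) ^ 2) ∪ {l₁ ^ 2, l₂ ^ 2})

/-- The quotient algebra `ℂ[x_1, ..., x_n] / (x_1 ^ 2, ..., x_n ^ 2, l₁ ^ 2, l₂ ^ 2)`. -/
def SymQuot {n : ℕ} (l₁ l₂ : MvPolynomial (Fin n) ℂ) : Type :=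
  MvPolynomial (Fin n) ℂ ⧸ symIdeal l₁ l₂

noncomputable instance instRingSymQuot {n : ℕ} (l₁ l₂ : MvPolynomial (Fin n) ℂ) :
    CommRing (SymQuot l₁ l₂) :=
  (inferInstance : CommRing (MvPolynomial (Fin n) ℂ ⧸ symIdeal l₁ l₂))

noncomputable instance instAlgebraSymQuot {n : ℕ} (l₁ l₂ : MvPolynomial (Fin n) ℂ) :
    Algebra ℂ (SymQuot l₁ l₂) :=
  (inferInstance : Algebra ℂ (MvPolynomial (Fin n) ℂ ⧸ symIdeal l₁ l₂))

/-- The projection from the polynomial ring onto the quotient. -/
noncomputable def symProj {n : ℕ} (l₁ l₂ : MvPolynomial (Fin n) ℂ) :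
    MvPolynomial (Fin n) ℂ →ₐ[ℂ] SymQuot l₁ l₂ :=
  Ideal.Quotient.mkₐ ℂ (symIdeal l₁ l₂)

/-- The Hilbert series of `ℂ[x_1, ..., x_n] / (x_1 ^ 2, ..., x_n ^ 2, l₁ ^ 2, l₂ ^ 2)`. -/
noncomputable def symSeries {n : ℕ} (l₁ l₂ : MvPolynomial (Fin n) ℂ) : PowerSeries ℤ :=
  PowerSeries.mk fun s => (Module.finrank ℂ
    (Submodule.map (symProj l₁ l₂).toLinearMap (homogeneousSubmodule (Fin n) ℂ s)) : ℤ)

/-- `a(n, s)`: the number of lattice paths (sequences of lattice points) from `(0, 0)` to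
`(n + 2 - 2s, n + 2)` with steps `(1, 1)` and `(-1, 1)` which stay in the closed rectangle
`[0, n + 2 - 2s] × [0, n + 2]`. -/
noncomputable def paths (n s : ℕ) : ℕ :=
  Set.ncard {P : Fin (n + 3) → ℤ × ℤ |
    P 0 = (0, 0) ∧ P (Fin.last (n + 2)) = ((n : ℤ) + 2 - 2 * s, (n : ℤ) + 2) ∧
    (∀ i : Fin (n + 2), P i.succ = P i.castSucc + (1, 1) ∨ P i.succ = P i.castSucc + (-1, 1)) ∧
    ∀ i, 0 ≤ (P i).1 ∧ (P i).1 ≤ (n : ℤ) + 2 - 2 * s ∧ 0 ≤ (P i).2 ∧ (P i).2 ≤ (n : ℤ) + 2}

/-- The series `1 + ∑_{s ≥ 1} a(n, s) t ^ s`. -/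
noncomputable def pathSeries (n : ℕ) : PowerSeries ℤ :=
  PowerSeries.mk fun s => if s = 0 then 1 else (paths n s : ℤ)

/-- For every `n` there is a nonzero polynomial `P` in the coefficients of two quadratic forms of
the exterior algebra and a nonzero polynomial `Q` in the coefficients of two linear forms, such
that off the zero sets of `P` and `Q` both Hilbert series are equal to
`1 + ∑_{s ≥ 1} a(n, s) t ^ s`. -/
theorem result (n : ℕ) :
    (∃ P : MvPolynomial (Fin 2 × {p : Fin n × Fin n // p.1 < p.2}) ℂ, P ≠ 0 ∧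
      ∀ c, eval c P ≠ 0 →
        extSeries (quad fun p => c (0, p)) (quad fun p => c (1, p)) = pathSeries n) ∧
    (∃ Q : MvPolynomial (Fin 2 × Fin n) ℂ, Q ≠ 0 ∧
      ∀ c, eval c Q ≠ 0 →
        symSeries (lin fun i => c (0, i)) (lin fun i => c (1, i)) = pathSeries n) := by
  have key : ∀ h : ℕ → ℕ, (∀ s, h s = Set.ncard (Pool.Agent.Helper58.Quad.Good n s)) →
      (PowerSeries.mk fun s => (h s : ℤ)) = pathSeries n := by
    intro h hh
    ext s
    rw [pathSeries, PowerSeries.coeff_mk, PowerSeries.coeff_mk, hh]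
    split_ifs with hs
    · subst hs
      rw [Pool.Agent.Helper58.Quad.good_zero]
      rfl
    · have h1 := Pool.Agent.Helper58.Quad.paths_count n s
      rw [← h1]
      rfl
  constructor
  · obtain ⟨P, hP, hc⟩ := Pool.Agent.Helper58.Quad.ext_generic_all n
    refine ⟨P, hP, fun c h => key _ fun s => ?_⟩
    have h1 := hc c h s
    rw [← Pool.Agent.Helper58.Quad.finrank_ext
      (Pool.Agent.Helper58.Quad.quadf_mem _) (Pool.Agent.Helper58.Quad.quadf_mem _)] at h1
    exact h1
  · obtain ⟨Q, hQ, hc⟩ := Pool.Agent.Helper58.Quad.sym_generic_all n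
    refine ⟨Q, hQ, fun c h => key _ fun s => ?_⟩
    have h1 := hc c h s
    rw [← Pool.Agent.Helper58.Quad.finrank_sym] at h1
    exact h1

end Pool.Agent.Results.MP_97e6ed_al.GenericSeries
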